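import Pool.Agent.K4H87.BE.Defs

/-!
# The initial ideal of a binomial edge ideal lies in the monomial primes of colourings
-/

set_option autoImplicit false
set_option linter.unusedSimpArgs false
set_option linter.unusedVariables false

namespace Pool.K4H87.BE

open MvPolynomial

namespace H94B

variable {n : ℕ}

theorem xv_inj {i j : Fin n} : xv i = xv j ↔ i = j := by
  unfold xv
  exact (Fin.castAdd_injective n n).eq_iff

theorem yv_inj {i j : Fin n} : yv i = yv j ↔ i = j := by
  unfold yv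
  exact (Fin.natAdd_injective n n).eq_iff

theorem xv_ne_yv {i j : Fin n} : xv i ≠ yv j := by
  intro h
  have := congrArg Fin.val h
  simp only [xv, yv, Fin.val_castAdd, Fin.val_natAdd] at this
  omega

theorem xv_lt {i j : Fin n} : xv i < xv j ↔ i < j := by
  rw [Fin.lt_def, Fin.lt_def]
  simp only [xv, Fin.val_castAdd]

theorem xv_lt_yv (i j : Fin n) : xv i < yv j := by
  rw [Fin.lt_def]
  simp only [xv, yv, Fin.val_castAdd, Fin.val_natAdd]
  omega

theorem ev_xx (i a : Fin n) :
    (Finsupp.single (xv i) 1 : Fin (n + n) →₀ ℕ) (xv a) = if i = a then 1 else 0 := by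
  rw [Finsupp.single_apply]
  simp only [xv_inj]

theorem ev_yy (i a : Fin n) :
    (Finsupp.single (yv i) 1 : Fin (n + n) →₀ ℕ) (yv a) = if i = a then 1 else 0 := by
  rw [Finsupp.single_apply]
  simp only [yv_inj]

theorem ev_xy (i a : Fin n) :
    (Finsupp.single (xv i) 1 : Fin (n + n) →₀ ℕ) (yv a) = 0 := by
  rw [Finsupp.single_apply, if_neg xv_ne_yv]

theorem ev_yx (i a : Fin n) :
    (Finsupp.single (yv i) 1 : Fin (n + n) →₀ ℕ) (xv a) = 0 := by
  rw [Finsupp.single_apply, if_neg (Ne.symm xv_ne_yv)]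

/-- The class of the exponent `m`. -/
def Nc (S : Finset (Fin n)) (c : Fin n → Fin n) (m ν : Fin (n + n) →₀ ℕ) : Prop :=
  (∀ i ∈ S, ν (xv i) = 0 ∧ ν (yv i) = 0) ∧
  (∀ i, ν (xv i) + ν (yv i) = m (xv i) + m (yv i)) ∧
  ∀ C, ∑ i ∈ Finset.univ.filter (fun i => c i = C), ν (xv i) =
    ∑ i ∈ Finset.univ.filter (fun i => c i = C), m (xv i)

theorem Nc_imp (S : Finset (Fin n)) (c : Fin n → Fin n) (m μ : Fin (n + n) →₀ ℕ) (i j : Fin n)
    (hi : i ∉ S) (hj : j ∉ S) (hc : c i = c j)
    (h : Nc S c m (μ + Finsupp.single (xv i) 1 + Finsupp.single (yv j) 1)) :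
    Nc S c m (μ + Finsupp.single (xv j) 1 + Finsupp.single (yv i) 1) := by
  obtain ⟨h1, h2, h3⟩ := h
  simp only [Finsupp.add_apply, ev_xx, ev_xy, ev_yx, ev_yy, add_zero] at h1 h2 h3
  refine ⟨?_, ?_, ?_⟩
  · intro a ha
    have hia : i ≠ a := fun h => hi (h ▸ ha)
    have hja : j ≠ a := fun h => hj (h ▸ ha)
    have := h1 a ha
    simp only [Finsupp.add_apply, ev_xx, ev_xy, ev_yx, ev_yy, add_zero]
    rw [if_neg hia, if_neg hja] at this ⊢
    exact this
  · intro a
    have := h2 a
    simp only [Finsupp.add_apply, ev_xx, ev_xy, ev_yx, ev_yy, add_zero]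
    omega
  · intro C
    have := h3 C
    simp only [Finsupp.add_apply, ev_xx, ev_xy, ev_yx, ev_yy, add_zero]
    rw [Finset.sum_add_distrib, Finset.sum_ite_eq] at this ⊢
    simp only [Finset.mem_filter, Finset.mem_univ, true_and] at this ⊢
    rw [hc] at this
    exact this

theorem Nc_iff (S : Finset (Fin n)) (c : Fin n → Fin n) (m μ : Fin (n + n) →₀ ℕ) (i j : Fin n)
    (hc : i ∉ S → j ∉ S → c i = c j) (hij : i ≠ j) :
    Nc S c m (μ + Finsupp.single (xv i) 1 + Finsupp.single (yv j) 1) ↔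
    Nc S c m (μ + Finsupp.single (xv j) 1 + Finsupp.single (yv i) 1) := by
  by_cases hi : i ∈ S
  · constructor
    · intro h
      have := (h.1 i hi).1
      simp only [Finsupp.add_apply, ev_xx, ev_xy, ev_yx, ev_yy, add_zero, if_true] at this
      omega
    · intro h
      have := (h.1 i hi).2
      simp only [Finsupp.add_apply, ev_xx, ev_xy, ev_yx, ev_yy, add_zero, if_true] at this
      omega
  by_cases hj : j ∈ S
  · constructor
    · intro h
      have := (h.1 j hj).2
      simp only [Finsupp.add_apply, ev_xx, ev_xy, ev_yx, ev_yy, add_zero, if_true] at this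
      omega
    · intro h
      have := (h.1 j hj).1
      simp only [Finsupp.add_apply, ev_xx, ev_xy, ev_yx, ev_yy, add_zero, if_true] at this
      omega
  exact ⟨Nc_imp S c m μ i j hi hj (hc hi hj), Nc_imp S c m μ j i hj hi (hc hi hj).symm⟩

open Classical in
/-- The sum of the coefficients over the exponents with property `P`. -/
noncomputable def L (K : Type) [Field K] (P : (Fin (n + n) →₀ ℕ) → Prop) :
    MvPolynomial (Fin (n + n)) K →ₗ[K] K :=
  (basisMonomials (Fin (n + n)) K).constr K (fun ν => if P ν then (1 : K) else 0)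

open Classical in
theorem L_monomial (K : Type) [Field K] (P : (Fin (n + n) →₀ ℕ) → Prop)
    (μ : Fin (n + n) →₀ ℕ) (a : K) : L K P (monomial μ a) = if P μ then a else 0 := by
  have h : (monomial μ a : MvPolynomial (Fin (n + n)) K) =
      a • (basisMonomials (Fin (n + n)) K) μ := by
    rw [coe_basisMonomials, smul_monomial, smul_eq_mul, mul_one]
  rw [h, map_smul, L, Module.Basis.constr_basis]
  split_ifs <;> simp

theorem L_edge (K : Type) [Field K] (G : SimpleGraph (Fin n)) (P : (Fin (n + n) →₀ ℕ) → Prop)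
    (hP : ∀ i j, G.Adj i j → i < j → ∀ μ,
      (P (μ + Finsupp.single (xv i) 1 + Finsupp.single (yv j) 1) ↔
        P (μ + Finsupp.single (xv j) 1 + Finsupp.single (yv i) 1)))
    (f : MvPolynomial (Fin (n + n)) K) (hf : f ∈ edgeIdeal K G) : ∀ g, L K P (g * f) = 0 := by
  classical
  unfold edgeIdeal at hf
  induction hf using Submodule.span_induction with
  | mem f h =>
    obtain ⟨i, j, hadj, hij, rfl⟩ := h
    intro g
    induction g using MvPolynomial.induction_on' with
    | monomial μ a =>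
      have e : ∀ u v : Fin (n + n), (monomial μ a * (X u * X v) : MvPolynomial (Fin (n + n)) K) =
          monomial (μ + Finsupp.single u 1 + Finsupp.single v 1) a := by
        intro u v
        rw [X, X, monomial_mul, monomial_mul, mul_one, mul_one, add_assoc]
      rw [mul_sub, map_sub, e, e, L_monomial, L_monomial, if_congr (hP i j hadj hij μ) rfl rfl,
        sub_self]
    | add p q hp hq => rw [add_mul, map_add, hp, hq, add_zero]
  | zero => intro g; simp
  | add x y _ _ hx hy => intro g; rw [mul_add, map_add, hx, hy, add_zero]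
  | smul a x _ hx => intro g; rw [smul_eq_mul, ← mul_assoc]; exact hx _

theorem exists_other (K : Type) [Field K] (P : (Fin (n + n) →₀ ℕ) → Prop)
    (f : MvPolynomial (Fin (n + n)) K) (hL : L K P f = 0) (m : Fin (n + n) →₀ ℕ)
    (hm : m ∈ f.support) (hPm : P m) : ∃ ν ∈ f.support, P ν ∧ ν ≠ m := by
  classical
  by_contra hcon
  push Not at hcon
  have h1 : L K P f = ∑ ν ∈ f.support, if P ν then coeff ν f else 0 := by
    conv_lhs => rw [f.as_sum]
    rw [map_sum]
    exact Finset.sum_congr rfl (fun ν _ => L_monomial K P ν _)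
  rw [Finset.sum_eq_single_of_mem m hm] at h1
  · rw [if_pos hPm, hL] at h1
    exact (mem_support_iff.mp hm) h1.symm
  · intro ν hν hne
    rw [if_neg]
    intro hp
    exact hne (hcon ν hν hp)

theorem key (K : Type) [Field K] (G : SimpleGraph (Fin n)) (S : Finset (Fin n))
    (c k : Fin n → Fin n) (hc : ∀ i j, G.Adj i j → i ∉ S → j ∉ S → c i = c j)
    (f : MvPolynomial (Fin (n + n)) K) (hf : f ∈ edgeIdeal K G) (m : Fin (n + n) →₀ ℕ)
    (hm : m ∈ f.support) (hlex : ∀ ν ∈ f.support, toLex ν ≤ toLex m)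
    (hS : ∀ i ∈ S, m (xv i) = 0 ∧ m (yv i) = 0)
    (hx : ∀ i, i < k (c i) → m (xv i) = 0) (hy : ∀ j, k (c j) < j → m (yv j) = 0) : False := by
  have hPm : Nc S c m m := ⟨hS, fun _ => rfl, fun _ => rfl⟩
  have hL : L K (Nc S c m) f = 0 := by
    have := L_edge K G (Nc S c m)
      (fun i j hadj hij μ => Nc_iff S c m μ i j (hc i j hadj) (ne_of_lt hij)) f hf 1
    rwa [one_mul] at this
  obtain ⟨ν, hν, ⟨h1, h2, h3⟩, hne⟩ := exists_other K (Nc S c m) f hL m hm hPm
  have hlt : toLex ν < toLex m := lt_of_le_of_ne (hlex ν hν) (fun h => hne (toLex.injective h))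
  obtain ⟨a, ha1, ha2⟩ := Finsupp.Lex.lt_iff.mp hlt
  have hb1 : ∀ j, j < a → ν j = m j := ha1
  have hb2 : ν a < m a := ha2
  clear ha1 ha2 hlt
  rcases Nat.lt_or_ge a.val n with han | han
  · -- `a = x_i`
    obtain ⟨i, rfl⟩ : ∃ i : Fin n, a = xv i := ⟨⟨a.val, han⟩, by
      apply Fin.ext; simp [xv]⟩
    have hki : k (c i) ≤ i := by
      by_contra hcon
      have := hx i (not_le.mp hcon)
      omega
    have hs := h3 (c i)
    have : ∃ i' ∈ Finset.univ.filter (fun j => c j = c i), m (xv i') < ν (xv i') := by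
      by_contra hcon
      push Not at hcon
      have := Finset.sum_lt_sum hcon
        ⟨i, by rw [Finset.mem_filter]; exact ⟨Finset.mem_univ _, rfl⟩, hb2⟩
      omega
    obtain ⟨i', hi', hgt⟩ := this
    rw [Finset.mem_filter] at hi'
    have hii : i < i' := by
      by_contra hcon
      rcases lt_or_eq_of_le (not_lt.mp hcon) with h | h
      · have := hb1 (xv i') (xv_lt.mpr h)
        omega
      · subst h
        omega
    have hyy : m (yv i') = 0 := by
      apply hy
      rw [hi'.2]
      exact lt_of_le_of_lt hki hii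
    have := h2 i'
    omega
  · -- `a = y_i`
    obtain ⟨i, rfl⟩ : ∃ i : Fin n, a = yv i := ⟨⟨a.val - n, by have := a.isLt; omega⟩, by
      apply Fin.ext; simp [yv]; omega⟩
    have e1 := hb1 (xv i) (xv_lt_yv i i)
    have e2 := h2 i
    omega

end H94B

theorem initialIdeal_le (K : Type) [Field K] {n : ℕ} (G : SimpleGraph (Fin n))
    (S : Finset (Fin n)) (c k : Fin n → Fin n)
    (hc : ∀ i j, G.Adj i j → i ∉ S → j ∉ S → c i = c j) :
    initialIdeal (edgeIdeal K G) ≤ Ideal.span (X '' {v | (∃ i ∈ S, v = xv i ∨ v = yv i) ∨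
      (∃ i, v = xv i ∧ i < k (c i)) ∨ (∃ j, v = yv j ∧ k (c j) < j)}) := by
  unfold initialIdeal
  rw [Ideal.span_le]
  rintro _ ⟨f, hf, hf0, rfl⟩
  set m := (MonomialOrder.lex (σ := Fin (n + n))).degree f with hmdef
  rw [SetLike.mem_coe, mem_ideal_span_X_image]
  intro m' hm'
  have hmm : m' = m := by
    by_contra hne
    rw [mem_support_iff, coeff_monomial, if_neg (Ne.symm hne)] at hm'
    exact hm' rfl
  subst hmm
  by_contra hcon
  push Not at hcon
  refine H94B.key K G S c k hc f hf m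
    (MonomialOrder.degree_mem_support (m := MonomialOrder.lex) hf0) ?_ ?_ ?_ ?_
  · intro ν hν
    exact MonomialOrder.lex_le_iff.mp (MonomialOrder.le_degree (m := MonomialOrder.lex) hν)
  · intro i hi
    exact ⟨hcon _ (Or.inl ⟨i, hi, Or.inl rfl⟩), hcon _ (Or.inl ⟨i, hi, Or.inr rfl⟩)⟩
  · intro i hi
    exact hcon _ (Or.inr (Or.inl ⟨i, rfl, hi⟩))
  · intro j hj
    exact hcon _ (Or.inr (Or.inr ⟨j, rfl, hj⟩))

end Pool.K4H87.BE
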