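import Pool.Agent.K4H65.EM.Spec

/-!
FIN: the final step of `n - d(n) = O((log n)^2)`.
-/

set_option autoImplicit false

namespace Pool.Agent.K4H65.EM

namespace F94

theorem frechet {n : ℕ} (ρ : Fin n → Fin n → ℝ) (h : IsMetric ρ) : Embeds n n ρ := by
  obtain ⟨h0, hpos, hs, ht⟩ := h
  have hnn : ∀ x y, 0 ≤ ρ x y := by
    intro x y
    by_cases hxy : x = y
    · subst hxy; rw [h0]
    · exact (hpos x y hxy).le
  refine ⟨fun x i => ρ x i, fun x y => ?_⟩
  apply le_antisymm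
  · rw [pi_norm_le_iff_of_nonneg (hnn x y)]
    intro i
    rw [Real.norm_eq_abs, Pi.sub_apply, abs_le]
    constructor
    · have := ht y x i
      rw [hs y x] at this
      linarith
    · have := ht x y i
      linarith
  · have h1 := norm_le_pi_norm ((fun i => ρ x i) - fun i => ρ y i) y
    rw [Pi.sub_apply, h0 y, sub_zero, Real.norm_eq_abs, abs_of_nonneg (hnn x y)] at h1
    exact h1

theorem dim_embeds {n : ℕ} (hn : 1 ≤ n) (ρ : Fin n → Fin n → ℝ) (h : IsMetric ρ) :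
    Embeds n (dim n) ρ := by
  have hne : {d | 1 ≤ d ∧ ∀ ρ : Fin n → Fin n → ℝ, IsMetric ρ → Embeds n d ρ}.Nonempty :=
    ⟨n, hn, fun ρ h => frechet ρ h⟩
  exact (Nat.sInf_mem hne).2 ρ h

theorem log_bound {n : ℕ} (hn : 2 ≤ n) : ((Nat.log 2 n + 1 : ℕ) : ℝ) ≤ 3 * Real.log n := by
  have h1 : ((2 ^ Nat.log 2 n : ℕ) : ℝ) ≤ n := by
    exact_mod_cast Nat.pow_log_le_self 2 (by omega)
  have h2 : (Nat.log 2 n : ℝ) * Real.log 2 ≤ Real.log n := by
    rw [← Real.log_pow]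
    apply Real.log_le_log (by positivity)
    exact_mod_cast h1
  have h3 : Real.log 2 ≤ Real.log n := Real.log_le_log (by norm_num) (by exact_mod_cast hn)
  have h4 := Real.log_two_gt_d9
  have h5 : (0 : ℝ) ≤ Nat.log 2 n := Nat.cast_nonneg _
  push_cast
  nlinarith

end F94

open F94 in
theorem fin : S_MET → S_COMB → S_RAND → S_FIN := by
  classical
  intro hM hC hR
  refine ⟨9 * 2 ^ 38, ?_⟩
  intro n hn
  set l := Nat.log 2 n + 1 with hl
  have hl1 : 1 ≤ l := by omega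
  have hnl : n < 2 ^ l := Nat.lt_pow_succ_log_self (by norm_num) n
  obtain ⟨G, hP1, hP2⟩ := hR n l hl1 hnl
  obtain ⟨ρ, hρ, hd⟩ := hM n G
  obtain ⟨S, hS⟩ := hd (dim n) (dim_embeds (by omega) ρ hρ)
  have hm : 1 ≤ 2 ^ 19 * l := by omega
  have h := hC n (dim n) (2 ^ 37 * l) (2 ^ 19 * l) G S hm hP1 hP2 hS l Finset.univ
    (by rw [Finset.card_univ, Fintype.card_fin]; exact hnl)
  rw [Finset.card_univ, Fintype.card_fin] at h
  have hact : act S Finset.univ ≤ dim n := by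
    unfold act
    calc _ ≤ (Finset.univ : Finset (Fin (dim n))).card := Finset.card_filter_le _ _
      _ = dim n := by rw [Finset.card_univ, Fintype.card_fin]
  have h2 : n ≤ dim n + 2 ^ 38 * l ^ 2 := by
    have h3 : 2 * (2 ^ 19 * l) * l = 2 ^ 20 * l ^ 2 := by ring
    have h4 : l ≤ l ^ 2 := by nlinarith
    rw [h3] at h
    omega
  have h5 : (n : ℝ) ≤ dim n + 2 ^ 38 * (l : ℝ) ^ 2 := by exact_mod_cast h2
  have h6 : (l : ℝ) ≤ 3 * Real.log n := log_bound hn
  have h7 : (l : ℝ) ^ 2 ≤ 9 * Real.log n ^ 2 := by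
    have : (0 : ℝ) ≤ l := Nat.cast_nonneg _
    nlinarith
  linarith

end Pool.Agent.K4H65.EM
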