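import Pool.Agent.K4H25.FH.Spec

/-!
Fractional Gaussian noise with `1/2 < H < 1`: signs of the differences of the autocovariance.
-/

set_option autoImplicit false
set_option linter.unusedSimpArgs false

namespace Pool.Agent.K4H25.FH

namespace P94

theorem four_lt {u : ℝ → ℝ} {S : Set ℝ} (hu : StrictConcaveOn ℝ S u) {a b d : ℝ} (ha : a ∈ S)
    (hbd : b + d ∈ S) (hab : a < b) (hd : 0 < d) : u a + u (b + d) < u (a + d) + u b := by
  have hL : 0 < b - a + d := by linarith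
  have hw : 0 < b - a := by linarith
  have hne : a ≠ b + d := by intro h; linarith
  have s1 : (b - a) / (b - a + d) + d / (b - a + d) = 1 := by
    rw [← add_div, div_eq_one_iff_eq hL.ne']
  have s2 : d / (b - a + d) + (b - a) / (b - a + d) = 1 := by
    rw [← add_div, div_eq_one_iff_eq hL.ne']; ring
  have h1 := hu.2 ha hbd hne (div_pos hw hL) (div_pos hd hL) s1
  have h2 := hu.2 ha hbd hne (div_pos hd hL) (div_pos hw hL) s2
  simp only [smul_eq_mul] at h1 h2
  have e1 : (b - a) / (b - a + d) * a + d / (b - a + d) * (b + d) = a + d := by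
    field_simp; ring
  have e2 : d / (b - a + d) * a + (b - a) / (b - a + d) * (b + d) = b := by
    field_simp; ring
  rw [e1] at h1
  rw [e2] at h2
  have e3 : (b - a) / (b - a + d) * u a + d / (b - a + d) * u (b + d) +
      (d / (b - a + d) * u a + (b - a) / (b - a + d) * u (b + d)) = u a + u (b + d) := by
    field_simp; ring
  linarith

theorem four_le {u : ℝ → ℝ} {S : Set ℝ} (hu : ConvexOn ℝ S u) {a b d : ℝ} (ha : a ∈ S)
    (hbd : b + d ∈ S) (hab : a ≤ b) (hd : 0 < d) : u (a + d) + u b ≤ u a + u (b + d) := by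
  have hL : 0 < b - a + d := by linarith
  have hw : 0 ≤ b - a := by linarith
  have s1 : (b - a) / (b - a + d) + d / (b - a + d) = 1 := by
    rw [← add_div, div_eq_one_iff_eq hL.ne']
  have s2 : d / (b - a + d) + (b - a) / (b - a + d) = 1 := by
    rw [← add_div, div_eq_one_iff_eq hL.ne']; ring
  have h1 := hu.2 ha hbd (div_nonneg hw hL.le) (div_nonneg hd.le hL.le) s1
  have h2 := hu.2 ha hbd (div_nonneg hd.le hL.le) (div_nonneg hw hL.le) s2
  simp only [smul_eq_mul] at h1 h2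
  have e1 : (b - a) / (b - a + d) * a + d / (b - a + d) * (b + d) = a + d := by
    field_simp; ring
  have e2 : d / (b - a + d) * a + (b - a) / (b - a + d) * (b + d) = b := by
    field_simp; ring
  rw [e1] at h1
  rw [e2] at h2
  have e3 : (b - a) / (b - a + d) * u a + d / (b - a + d) * u (b + d) +
      (d / (b - a + d) * u a + (b - a) / (b - a + d) * u (b + d)) = u a + u (b + d) := by
    field_simp; ring
  linarith

theorem cont (s c : ℝ) (hs : 0 ≤ s) : Continuous fun y : ℝ => (y + c) ^ s :=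
  Continuous.rpow_const (by fun_prop) (fun _ => Or.inr hs)

theorem hd (r c x : ℝ) (hx : 0 < x + c) :
    HasDerivAt (fun y : ℝ => (y + c) ^ r) (r * (x + c) ^ (r - 1)) x := by
  have h := ((hasDerivAt_id x).add_const c).rpow_const (p := r) (Or.inl hx.ne')
  simpa using h

/-- `g(y) = (y+1)^s - y^s` is strictly concave. -/
theorem g_conc {s : ℝ} (h1 : 1 < s) (h2 : s < 2) :
    StrictConcaveOn ℝ (Set.Ici 0) (fun y : ℝ => (y + 1) ^ s - (y + 0) ^ s) := by
  have hd' : ∀ x : ℝ, 0 < x → HasDerivAt (fun y : ℝ => (y + 1) ^ s - (y + 0) ^ s)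
      (s * (x + 1) ^ (s - 1) - s * (x + 0) ^ (s - 1)) x := fun x hx =>
    (hd s 1 x (by linarith)).sub (hd s 0 x (by linarith))
  refine StrictAntiOn.strictConcaveOn_of_deriv (convex_Ici 0)
    (((cont s 1 (by linarith)).sub (cont s 0 (by linarith))).continuousOn) ?_
  rw [interior_Ici]
  intro a ha b hb hab
  simp only [Set.mem_Ioi] at ha hb
  rw [(hd' a ha).deriv, (hd' b hb).deriv]
  have h := four_lt (Real.strictConcaveOn_rpow (p := s - 1) (by linarith) (by linarith))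
    (a := a) (b := b) (d := 1) (Set.mem_Ici.mpr ha.le) (Set.mem_Ici.mpr (by linarith)) hab one_pos
  simp only [add_zero]
  nlinarith

/-- negative powers are convex -/
theorem neg_conv {r : ℝ} (h1 : r < 0) : ConvexOn ℝ (Set.Ioi 0) (fun y : ℝ => (y + 0) ^ r) := by
  refine MonotoneOn.convexOn_of_deriv (convex_Ioi 0) ?_ ?_ ?_
  · intro x hx
    exact (hd r 0 x (by simpa using hx)).continuousAt.continuousWithinAt
  · rw [interior_Ioi]
    intro x hx
    exact (hd r 0 x (by simpa using hx)).differentiableAt.differentiableWithinAt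
  · rw [interior_Ioi]
    intro a ha b hb hab
    simp only [Set.mem_Ioi] at ha hb
    rw [(hd r 0 a (by linarith)).deriv, (hd r 0 b (by linarith)).deriv]
    have : (b + 0) ^ (r - 1) ≤ (a + 0) ^ (r - 1) :=
      Real.rpow_le_rpow_of_nonpos (by linarith) (by linarith) (by linarith)
    nlinarith

/-- `u(y) = (y+1)^p - y^p` is convex for `0 < p < 1` -/
theorem u_conv {p : ℝ} (h1 : 0 < p) (h2 : p < 1) :
    ConvexOn ℝ (Set.Ioi 0) (fun y : ℝ => (y + 1) ^ p - (y + 0) ^ p) := by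
  have hd' : ∀ x : ℝ, 0 < x → HasDerivAt (fun y : ℝ => (y + 1) ^ p - (y + 0) ^ p)
      (p * (x + 1) ^ (p - 1) - p * (x + 0) ^ (p - 1)) x := fun x hx =>
    (hd p 1 x (by linarith)).sub (hd p 0 x (by linarith))
  refine MonotoneOn.convexOn_of_deriv (convex_Ioi 0) ?_ ?_ ?_
  · intro x hx
    exact (hd' x hx).continuousAt.continuousWithinAt
  · rw [interior_Ioi]
    intro x hx
    exact (hd' x hx).differentiableAt.differentiableWithinAt
  · rw [interior_Ioi]
    intro a ha b hb hab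
    simp only [Set.mem_Ioi] at ha hb
    rw [(hd' a ha).deriv, (hd' b hb).deriv]
    have h := four_le (neg_conv (r := p - 1) (by linarith))
      (a := a) (b := b) (d := 1) ha (Set.mem_Ioi.mpr (by linarith)) hab one_pos
    simp only [add_zero] at h ⊢
    nlinarith

/-- `G(y) = (y+2)^s - 2 (y+1)^s + y^s` is convex -/
theorem G_conv {s : ℝ} (h1 : 1 < s) (h2 : s < 2) :
    ConvexOn ℝ (Set.Ici 0) (fun y : ℝ => (y + 2) ^ s - 2 * (y + 1) ^ s + (y + 0) ^ s) := by
  have hd' : ∀ x : ℝ, 0 < x → HasDerivAt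
      (fun y : ℝ => (y + 2) ^ s - 2 * (y + 1) ^ s + (y + 0) ^ s)
      (s * (x + 2) ^ (s - 1) - 2 * (s * (x + 1) ^ (s - 1)) + s * (x + 0) ^ (s - 1)) x :=
    fun x hx => ((hd s 2 x (by linarith)).sub ((hd s 1 x (by linarith)).const_mul 2)).add
      (hd s 0 x (by linarith))
  refine MonotoneOn.convexOn_of_deriv (convex_Ici 0) ?_ ?_ ?_
  · exact ((((cont s 2 (by linarith)).sub ((cont s 1 (by linarith)).const_mul 2)).add
      (cont s 0 (by linarith))).continuousOn)
  · rw [interior_Ici]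
    intro x hx
    exact (hd' x hx).differentiableAt.differentiableWithinAt
  · rw [interior_Ici]
    intro a ha b hb hab
    simp only [Set.mem_Ioi] at ha hb
    rw [(hd' a ha).deriv, (hd' b hb).deriv]
    have h := four_le (u_conv (p := s - 1) (by linarith) (by linarith))
      (a := a) (b := b) (d := 1) ha (Set.mem_Ioi.mpr (by linarith)) hab one_pos
    simp only [add_zero] at h ⊢
    have ea : a + 1 + 1 = a + 2 := by ring
    have eb : b + 1 + 1 = b + 2 := by ring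
    rw [ea, eb] at h
    nlinarith

/-- the numerical inequality at the first step -/
theorem num {s : ℝ} (_h1 : 1 < s) (h2 : s < 2) : 0 < (3 : ℝ) ^ s - 4 * 2 ^ s + 7 := by
  -- `h(s) = (3/2)^s + 7 (1/2)^s - 4` is convex, `h(2) = 0`, `h(5/2) < 0`
  have hc : ∀ b : ℝ, 0 < b → b ^ (2 : ℝ) ≤
      ((1 / 2) / (5 / 2 - s)) * b ^ s + ((2 - s) / (5 / 2 - s)) * b ^ (5 / 2 : ℝ) := by
    intro b hb
    have hL : 0 < 5 / 2 - s := by linarith
    have s1 : (1 / 2) / (5 / 2 - s) + (2 - s) / (5 / 2 - s) = 1 := by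
      rw [← add_div, div_eq_one_iff_eq hL.ne']; ring
    have h := (convexOn_rpow_left hb).2 (Set.mem_univ s) (Set.mem_univ (5 / 2 : ℝ))
      (div_nonneg (by norm_num) hL.le) (div_nonneg (by linarith) hL.le) s1
    simp only [smul_eq_mul] at h
    have e : (1 / 2) / (5 / 2 - s) * s + (2 - s) / (5 / 2 - s) * (5 / 2) = 2 := by
      have e' : (1 / 2) / (5 / 2 - s) * s + (2 - s) / (5 / 2 - s) * (5 / 2) =
          ((1 / 2) * s + (2 - s) * (5 / 2)) / (5 / 2 - s) := by ring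
      rw [e', div_eq_iff hL.ne']; ring
    rw [e] at h
    exact h
  have hL : 0 < 5 / 2 - s := by linarith
  have a1 := hc (3 / 2) (by norm_num)
  have a2 := hc (1 / 2) (by norm_num)
  have v1 : ((3 / 2 : ℝ)) ^ (2 : ℝ) = 9 / 4 := by
    rw [show (2 : ℝ) = ((2 : ℕ) : ℝ) by norm_num, Real.rpow_natCast]; norm_num
  have v2 : ((1 / 2 : ℝ)) ^ (2 : ℝ) = 1 / 4 := by
    rw [show (2 : ℝ) = ((2 : ℕ) : ℝ) by norm_num, Real.rpow_natCast]; norm_num
  have w1 : ((3 / 2 : ℝ)) ^ (5 / 2 : ℝ) ≤ 9 / 4 * 1.2248 := by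
    rw [show (5 / 2 : ℝ) = 2 + 1 / 2 by norm_num, Real.rpow_add (by norm_num), v1,
      ← Real.sqrt_eq_rpow]
    have : Real.sqrt (3 / 2) ≤ 1.2248 := by
      rw [Real.sqrt_le_left (by norm_num)]; norm_num
    linarith
  have w2 : ((1 / 2 : ℝ)) ^ (5 / 2 : ℝ) ≤ 1 / 4 * 0.7072 := by
    rw [show (5 / 2 : ℝ) = 2 + 1 / 2 by norm_num, Real.rpow_add (by norm_num), v2,
      ← Real.sqrt_eq_rpow]
    have : Real.sqrt (1 / 2) ≤ 0.7072 := by
      rw [Real.sqrt_le_left (by norm_num)]; norm_num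
    linarith
  rw [v1] at a1
  rw [v2] at a2
  -- combine
  set x := ((3 / 2 : ℝ)) ^ s with hx
  set y := ((1 / 2 : ℝ)) ^ s with hy
  set lam := (1 / 2) / (5 / 2 - s) with hlam
  set mu := (2 - s) / (5 / 2 - s) with hmu
  have hl : 0 < lam := div_pos (by norm_num) hL
  have hm : 0 < mu := div_pos (by linarith) hL
  have hs : lam + mu = 1 := by
    rw [hlam, hmu, ← add_div, div_eq_one_iff_eq hL.ne']; ring
  have key : 0 < lam * (x + 7 * y - 4) := by
    have t1 : mu * ((3 / 2 : ℝ)) ^ (5 / 2 : ℝ) ≤ mu * (9 / 4 * 1.2248) :=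
      mul_le_mul_of_nonneg_left w1 hm.le
    have t2 : mu * ((1 / 2 : ℝ)) ^ (5 / 2 : ℝ) ≤ mu * (1 / 4 * 0.7072) :=
      mul_le_mul_of_nonneg_left w2 hm.le
    have t3 : lam * (x + 7 * y - 4) = lam * x + 7 * (lam * y) - 4 * lam := by ring
    rw [t3]
    nlinarith
  have pos : 0 < x + 7 * y - 4 := by
    by_contra hcon
    push Not at hcon
    nlinarith
  have p2 : (0 : ℝ) < 2 ^ s := Real.rpow_pos_of_pos (by norm_num) s
  have ex : x * 2 ^ s = 3 ^ s := by
    rw [hx, ← Real.mul_rpow (by norm_num) (by norm_num)]; norm_num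
  have ey : y * 2 ^ s = 1 := by
    rw [hy, ← Real.mul_rpow (by norm_num) (by norm_num)]; norm_num
  have : 0 < (x + 7 * y - 4) * 2 ^ s := mul_pos pos p2
  have e : (x + 7 * y - 4) * 2 ^ s = (3 : ℝ) ^ s - 4 * 2 ^ s + 7 := by
    rw [← ex]; linear_combination 7 * ey
  linarith

theorem gam_neg (H : ℝ) (j : ℤ) : gam H (-j) = gam H j := by
  unfold gam
  have h1 : |((-j : ℤ) : ℝ) + 1| = |(j : ℝ) - 1| := by
    rw [← abs_neg]; congr 1; push_cast; ring
  have h2 : |((-j : ℤ) : ℝ) - 1| = |(j : ℝ) + 1| := by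
    rw [← abs_neg]; congr 1; push_cast; ring
  have h3 : |((-j : ℤ) : ℝ)| = |(j : ℝ)| := by
    rw [← abs_neg]; congr 1; push_cast; ring
  rw [h1, h2, h3]; ring

theorem gam_zero {H : ℝ} (h : 1 / 2 < H) : gam H 0 = 1 := by
  unfold gam
  have : (2 : ℝ) * H ≠ 0 := by linarith
  simp [Real.zero_rpow this]

theorem gam_succ (H : ℝ) (n : ℕ) : gam H ((n : ℤ) + 1)
    = (((n : ℝ) + 2) ^ (2 * H) - 2 * ((n : ℝ) + 1) ^ (2 * H) + ((n : ℝ) + 0) ^ (2 * H)) / 2 := by
  unfold gam
  have h0 : (0 : ℝ) ≤ n := Nat.cast_nonneg n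
  have h1 : |(((n : ℤ) + 1 : ℤ) : ℝ) + 1| = (n : ℝ) + 2 := by
    push_cast; rw [abs_of_nonneg (by linarith)]; ring
  have h2 : |(((n : ℤ) + 1 : ℤ) : ℝ) - 1| = (n : ℝ) + 0 := by
    push_cast; rw [abs_of_nonneg (by linarith)]; ring
  have h3 : |(((n : ℤ) + 1 : ℤ) : ℝ)| = (n : ℝ) + 1 := by
    push_cast; rw [abs_of_nonneg (by linarith)]
  rw [h1, h2, h3]

theorem dlt_neg (H : ℝ) (j : ℤ) : dlt H (-j) = dlt H j := by
  unfold dlt
  rw [gam_neg, show -j + 1 = -(j - 1) by ring, gam_neg, show -j - 1 = -(j + 1) by ring, gam_neg]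
  ring

end P94

open P94

theorem phi_pos {H : ℝ} (h : 1 / 2 < H) (h1 : H < 1) (n : ℕ) : 0 < phi H n := by
  rcases n with _ | m
  · unfold phi
    have e0 : gam H ((0 : ℕ) : ℤ) = 1 := by simpa using gam_zero h
    have e1 := gam_succ H 0
    rw [e0]
    have e2 : gam H (((0 : ℕ) : ℤ) + 1) = (2 ^ (2 * H) - 2) / 2 := by
      rw [e1]
      have : (2 : ℝ) * H ≠ 0 := by linarith
      simp [Real.zero_rpow this]
    rw [e2]
    have : (2 : ℝ) ^ (2 * H) < 2 ^ (2 : ℝ) :=
      Real.rpow_lt_rpow_of_exponent_lt (by norm_num) (by linarith)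
    have v : (2 : ℝ) ^ (2 : ℝ) = 4 := by
      rw [show (2 : ℝ) = ((2 : ℕ) : ℝ) by norm_num, Real.rpow_natCast]; norm_num
    linarith
  · unfold phi
    have e1 := gam_succ H m
    have e2 := gam_succ H (m + 1)
    have c1 : (((m + 1 : ℕ) : ℤ)) = (m : ℤ) + 1 := by push_cast; ring
    rw [c1] at e2 ⊢
    rw [e1, e2]
    have hf := four_lt (g_conc (s := 2 * H) (by linarith) (by linarith)) (a := (m : ℝ))
      (b := (m : ℝ) + 1) (d := 1) (Set.mem_Ici.mpr (Nat.cast_nonneg m))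
      (Set.mem_Ici.mpr (by positivity)) (by linarith) one_pos
    simp only [add_zero] at hf ⊢
    push_cast
    have a1 : (m : ℝ) + 1 + 1 = m + 2 := by ring
    have a2 : (m : ℝ) + 1 + 2 = m + 3 := by ring
    have a3 : (m : ℝ) + 2 + 1 = m + 3 := by ring
    rw [a1] at hf
    rw [a3] at hf
    rw [a1, a2]
    linarith

theorem dlt_one_neg {H : ℝ} (h : 1 / 2 < H) (h1 : H < 1) : dlt H 1 < 0 := by
  unfold dlt
  have hz : (2 : ℝ) * H ≠ 0 := by linarith
  have e0 : gam H (1 - 1) = 1 := by simpa using gam_zero h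
  have e1 : gam H 1 = (2 ^ (2 * H) - 2) / 2 := by
    have := gam_succ H 0
    simp only [Nat.cast_zero, zero_add] at this
    rw [this]; simp [Real.zero_rpow hz]
  have e2 : gam H (1 + 1) = (3 ^ (2 * H) - 2 * 2 ^ (2 * H) + 1) / 2 := by
    have := gam_succ H 1
    simp only [Nat.cast_one, add_zero, Real.one_rpow] at this
    rw [this]; norm_num
  have := num (s := 2 * H) (by linarith) (by linarith)
  rw [e0, e1, e2]
  linarith

theorem dlt_nonpos {H : ℝ} (h : 1 / 2 < H) (h1 : H < 1) {j : ℤ} (hj : j ≠ 0) : dlt H j ≤ 0 := by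
  have pos : ∀ n : ℕ, dlt H ((n : ℤ) + 1) ≤ 0 := by
    intro n
    rcases n with _ | m
    · simpa using (dlt_one_neg h h1).le
    · unfold dlt
      have e1 := gam_succ H m
      have e2 := gam_succ H (m + 1)
      have e3 := gam_succ H (m + 2)
      have c0 : (((m + 1 : ℕ) : ℤ)) + 1 - 1 = (m : ℤ) + 1 := by push_cast; ring
      have c3 : (((m + 1 : ℕ) : ℤ)) + 1 + 1 = ((m + 2 : ℕ) : ℤ) + 1 := by push_cast; ring
      rw [c0, c3, e1, e2, e3]
      have hf := four_le (G_conv (s := 2 * H) (by linarith) (by linarith)) (a := (m : ℝ))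
        (b := (m : ℝ) + 1) (d := 1) (Set.mem_Ici.mpr (Nat.cast_nonneg m))
        (Set.mem_Ici.mpr (by positivity)) (by linarith) one_pos
      simp only [add_zero] at hf ⊢
      push_cast
      have a1 : (m : ℝ) + 1 + 1 = m + 2 := by ring
      have a2 : (m : ℝ) + 1 + 2 = m + 3 := by ring
      have a3 : (m : ℝ) + 2 + 1 = m + 3 := by ring
      have a4 : (m : ℝ) + 2 + 2 = m + 4 := by ring
      simp only [a1, a2, a3, a4] at hf ⊢
      linarith
  rcases lt_or_gt_of_ne hj with hneg | hpos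
  · rw [← dlt_neg]
    obtain ⟨n, hn⟩ := Int.eq_ofNat_of_zero_le (show (0 : ℤ) ≤ -j - 1 by omega)
    have : -j = (n : ℤ) + 1 := by omega
    rw [this]; exact pos n
  · obtain ⟨n, hn⟩ := Int.eq_ofNat_of_zero_le (show (0 : ℤ) ≤ j - 1 by omega)
    have : j = (n : ℤ) + 1 := by omega
    rw [this]; exact pos n

theorem row {H : ℝ} (i n : ℕ) :
    ∑ m ∈ Finset.range (i + n + 1), dlt H ((i : ℤ) - (m : ℤ)) = phi H i + phi H n := by
  have h : ∀ m : ℕ, dlt H ((i : ℤ) - (m : ℤ)) =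
      (fun m : ℕ => gam H ((i : ℤ) - m) - gam H ((i : ℤ) - m + 1)) m -
      (fun m : ℕ => gam H ((i : ℤ) - m) - gam H ((i : ℤ) - m + 1)) (m + 1) := by
    intro m
    unfold dlt
    have c1 : (i : ℤ) - ((m + 1 : ℕ) : ℤ) = (i : ℤ) - m - 1 := by push_cast; ring
    have c2 : (i : ℤ) - ((m + 1 : ℕ) : ℤ) + 1 = (i : ℤ) - m := by push_cast; ring
    simp only [c1, c2]
    have c3 : (i : ℤ) - m - 1 + 1 = (i : ℤ) - m := by ring
    rw [c3]
    ring
  rw [Finset.sum_congr rfl (fun m _ => h m), Finset.sum_range_sub']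
  unfold phi
  have c1 : (i : ℤ) - ((i + n + 1 : ℕ) : ℤ) = -((n : ℤ) + 1) := by push_cast; ring
  have c2 : (i : ℤ) - ((i + n + 1 : ℕ) : ℤ) + 1 = -(n : ℤ) := by push_cast; ring
  rw [c2, c1, gam_neg, gam_neg]
  simp only [Nat.cast_zero, sub_zero]
  ring

theorem gam_nonneg {H : ℝ} (h : 1 / 2 < H) (_h1 : H < 1) (j : ℤ) : 0 ≤ gam H j := by
  have pos : ∀ n : ℕ, 0 ≤ gam H ((n : ℤ) + 1) := by
    intro n
    rw [gam_succ]
    have hf := four_le (convexOn_rpow (p := 2 * H) (by linarith)) (a := (n : ℝ))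
      (b := (n : ℝ) + 1) (d := 1) (Set.mem_Ici.mpr (Nat.cast_nonneg n))
      (Set.mem_Ici.mpr (by positivity)) (by linarith) one_pos
    have a1 : (n : ℝ) + 1 + 1 = n + 2 := by ring
    simp only [a1, add_zero] at hf ⊢
    linarith
  rcases lt_trichotomy j 0 with hneg | h0 | hpos
  · rw [← gam_neg]
    obtain ⟨n, hn⟩ := Int.eq_ofNat_of_zero_le (show (0 : ℤ) ≤ -j - 1 by omega)
    have : -j = (n : ℤ) + 1 := by omega
    rw [this]; exact pos n
  · rw [h0, gam_zero h]; norm_num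
  · obtain ⟨n, hn⟩ := Int.eq_ofNat_of_zero_le (show (0 : ℤ) ≤ j - 1 by omega)
    have : j = (n : ℤ) + 1 := by omega
    rw [this]; exact pos n

end Pool.Agent.K4H25.FH
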