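import Pool.Agent.K4H40.NS.Spec

/-!
DIM: the Hilbert function of a polynomial ring modulo independent linear forms.
-/

set_option autoImplicit false

namespace Pool.Agent.K4H40.NS

open MvPolynomial Module

namespace D94

noncomputable section

theorem finrank_hs (s n : ℕ) (K : Type) [Field K] :
    finrank K (homogeneousSubmodule (Fin s) K n) = (s + n - 1).choose n := by
  classical
  rw [homogeneousSubmodule_eq_finsupp_supported]
  have e := AddMonoidAlgebra.supportedEquivFinsupp (R := K) (S := K)
    {d : Fin s →₀ ℕ | d.degree = n}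
  rw [LinearEquiv.finrank_eq e]
  let e2 : Sym (Fin s) n ≃ {d : Fin s →₀ ℕ | d.degree = n} := Sym.equivNatSum (Fin s) n
  haveI : Fintype {d : Fin s →₀ ℕ | d.degree = n} := Fintype.ofEquiv _ e2
  rw [Module.finrank_finsupp_self, ← Fintype.card_congr e2, Sym.card_sym_eq_choose,
    Fintype.card_fin]

variable {K : Type} [Field K]

/-- the linear form with given coefficients -/
def cf (n : ℕ) (K : Type) [Field K] : (Fin n → K) →ₗ[K] MvPolynomial (Fin n) K :=
  ∑ j : Fin n, (LinearMap.toSpanSingleton K _ (X j)).comp (LinearMap.proj j)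

theorem cf_apply {n : ℕ} (v : Fin n → K) : cf n K v = ∑ j, v j • X j := by
  simp [cf]

theorem cf_single {n : ℕ} (j : Fin n) : cf n K (Pi.single j 1) = X j := by
  rw [cf_apply, Finset.sum_eq_single j]
  · simp
  · intro b _ hb
    simp [Pi.single_eq_of_ne hb]
  · intro h
    exact absurd (Finset.mem_univ j) h

theorem cf_mem {n : ℕ} (v : Fin n → K) : (cf n K v).IsHomogeneous 1 := by
  rw [cf_apply]
  apply IsHomogeneous.sum
  intro j _
  rw [smul_eq_C_mul]
  simpa using (isHomogeneous_C (Fin n) (v j)).mul (isHomogeneous_X K j)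

theorem exists_cf {n : ℕ} (f : MvPolynomial (Fin n) K) (hf : f ∈ homogeneousSubmodule (Fin n) K 1) :
    ∃ v, cf n K v = f := by
  rw [homogeneousSubmodule_one_eq_span_X] at hf
  induction hf using Submodule.span_induction with
  | mem x h =>
    obtain ⟨j, rfl⟩ := h
    exact ⟨_, cf_single j⟩
  | zero => exact ⟨0, map_zero _⟩
  | add x y _ _ hx hy =>
    obtain ⟨v, rfl⟩ := hx
    obtain ⟨w, rfl⟩ := hy
    exact ⟨v + w, map_add _ _ _⟩
  | smul a x _ hx =>
    obtain ⟨v, rfl⟩ := hx
    exact ⟨a • v, map_smul _ _ _⟩

/-- the span of the products `l i * f` -/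
def Th {n r : ℕ} (l : Fin r → MvPolynomial (Fin n) K) (d : ℕ) :
    Submodule K (MvPolynomial (Fin n) K) :=
  Submodule.span K {p | ∃ i, ∃ f ∈ homogeneousSubmodule (Fin n) K d, p = l i * f}

theorem span_mul {n r : ℕ} (l : Fin r → MvPolynomial (Fin n) K) (d : ℕ)
    (x : MvPolynomial (Fin n) K) (hx : x ∈ Submodule.span K (Set.range l))
    (f : MvPolynomial (Fin n) K) (hf : f ∈ homogeneousSubmodule (Fin n) K d) :
    x * f ∈ Th l d := by
  induction hx using Submodule.span_induction with
  | mem x h =>
    obtain ⟨i, rfl⟩ := h
    exact Submodule.subset_span ⟨i, f, hf, rfl⟩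
  | zero => rw [zero_mul]; exact Submodule.zero_mem _
  | add x y _ _ hx hy => rw [add_mul]; exact Submodule.add_mem _ hx hy
  | smul a x _ hx => rw [smul_mul_assoc]; exact Submodule.smul_mem _ _ hx

theorem mul_Th {n r : ℕ} (l : Fin r → MvPolynomial (Fin n) K) (d : ℕ)
    (y : MvPolynomial (Fin n) K) (hy : y.IsHomogeneous 1)
    (f : MvPolynomial (Fin n) K) (hf : f ∈ Th l d) : y * f ∈ Th l (d + 1) := by
  induction hf using Submodule.span_induction with
  | mem x h =>
    obtain ⟨i, g, hg, rfl⟩ := h
    refine Submodule.subset_span ⟨i, y * g, ?_, by ring⟩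
    have := hy.mul (show g.IsHomogeneous d from hg)
    rw [add_comm] at this
    exact this
  | zero => rw [mul_zero]; exact Submodule.zero_mem _
  | add x y _ _ hx hy => rw [mul_add]; exact Submodule.add_mem _ hx hy
  | smul a x _ hx => rw [mul_smul_comm]; exact Submodule.smul_mem _ _ hx

theorem main {n r : ℕ} (l : Fin r → MvPolynomial (Fin n) K)
    (hl : ∀ i, l i ∈ homogeneousSubmodule (Fin n) K 1) (hli : LinearIndependent K l)
    (hr : r ≤ n) (d : ℕ) : finrank K (homogeneousSubmodule (Fin n) K (d + 1)) =
      finrank K (Th l d) + finrank K (homogeneousSubmodule (Fin (n - r)) K (d + 1)) := by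
  classical
  choose a ha using fun i => exists_cf (l i) (hl i)
  have hai : LinearIndependent K a := by
    have : LinearIndependent K (cf n K ∘ a) := by
      have e : cf n K ∘ a = l := funext ha
      rw [e]; exact hli
    exact this.of_comp _
  set W := Submodule.span K (Set.range a) with hW
  have hWr : finrank K W = r := by
    rw [hW, finrank_span_eq_card hai, Fintype.card_fin]
  have hq : finrank K ((Fin n → K) ⧸ W) = n - r := by
    have := Submodule.finrank_quotient_add_finrank W
    rw [hWr, Module.finrank_fin_fun] at this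
    omega
  have e0 : ((Fin n → K) ⧸ W) ≃ₗ[K] (Fin (n - r) → K) :=
    LinearEquiv.ofFinrankEq _ _ (by rw [hq, Module.finrank_fin_fun])
  set π : (Fin n → K) →ₗ[K] (Fin (n - r) → K) := e0.toLinearMap.comp W.mkQ with hπ
  have hπs : Function.Surjective π := by
    rw [hπ]
    exact e0.surjective.comp (Submodule.mkQ_surjective W)
  have hπk : ∀ v, π v = 0 → v ∈ W := by
    intro v hv
    rw [hπ, LinearMap.comp_apply] at hv
    have : W.mkQ v = 0 := by
      apply e0.injective
      rw [map_zero]
      exact hv
    rwa [Submodule.mkQ_apply, Submodule.Quotient.mk_eq_zero] at this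
  have hπa : ∀ i, π (a i) = 0 := by
    intro i
    rw [hπ, LinearMap.comp_apply]
    have : W.mkQ (a i) = 0 := by
      rw [Submodule.mkQ_apply, Submodule.Quotient.mk_eq_zero]
      exact Submodule.subset_span ⟨i, rfl⟩
    rw [this, map_zero]
  obtain ⟨τ, hτ⟩ := LinearMap.exists_rightInverse_of_surjective π (LinearMap.range_eq_top.mpr hπs)
  have hτ' : ∀ u, π (τ u) = u := fun u => by
    have := LinearMap.congr_fun hτ u
    simpa using this
  -- the two algebra maps
  let ψ : MvPolynomial (Fin n) K →ₐ[K] MvPolynomial (Fin (n - r)) K :=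
    aeval fun j => cf (n - r) K (π (Pi.single j 1))
  let σ : MvPolynomial (Fin (n - r)) K →ₐ[K] MvPolynomial (Fin n) K :=
    aeval fun t => cf n K (τ (Pi.single t 1))
  have hψc : ∀ v, ψ (cf n K v) = cf (n - r) K (π v) := by
    intro v
    have h : (ψ.toLinearMap.comp (cf n K)) = (cf (n - r) K).comp π := by
      apply LinearMap.pi_ext'
      intro j
      ext
      simp only [LinearMap.comp_apply, LinearMap.single_apply, AlgHom.toLinearMap_apply]
      rw [cf_single]
      simp [ψ]
    exact LinearMap.congr_fun h v
  have hσc : ∀ u, σ (cf (n - r) K u) = cf n K (τ u) := by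
    intro u
    have h : (σ.toLinearMap.comp (cf (n - r) K)) = (cf n K).comp τ := by
      apply LinearMap.pi_ext'
      intro j
      ext
      simp only [LinearMap.comp_apply, LinearMap.single_apply, AlgHom.toLinearMap_apply]
      rw [cf_single]
      simp [σ]
    exact LinearMap.congr_fun h u
  have hψσ : ∀ g, ψ (σ g) = g := by
    intro g
    have h : ψ.comp σ = AlgHom.id K _ := by
      apply MvPolynomial.algHom_ext
      intro t
      rw [AlgHom.comp_apply, ← cf_single (K := K) t, hσc, hψc, hτ']
      rfl
    exact AlgHom.congr_fun h g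
  have hψl : ∀ i, ψ (l i) = 0 := by
    intro i
    rw [← ha i, hψc, hπa, map_zero]
  have hXj : ∀ j, X j - σ (ψ (X j)) ∈ Submodule.span K (Set.range l) := by
    intro j
    rw [← cf_single (K := K) j, hψc, hσc, ← map_sub]
    have hw : Pi.single j (1 : K) - τ (π (Pi.single j 1)) ∈ W := by
      apply hπk
      rw [map_sub, hτ', sub_self]
    have : Submodule.map (cf n K) W = Submodule.span K (Set.range l) := by
      rw [hW, Submodule.map_span, ← Set.range_comp]
      congr 2
      exact funext ha
    rw [← this]
    exact Submodule.mem_map_of_mem hw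
  have hψh : ∀ m f, f ∈ homogeneousSubmodule (Fin n) K m →
      ψ f ∈ homogeneousSubmodule (Fin (n - r)) K m := by
    intro m f hf
    have := IsHomogeneous.aeval (show f.IsHomogeneous m from hf)
      (fun j => cf (n - r) K (π (Pi.single j 1))) (fun j => cf_mem _)
    rw [one_mul] at this
    exact this
  have hσh : ∀ m f, f ∈ homogeneousSubmodule (Fin (n - r)) K m →
      σ f ∈ homogeneousSubmodule (Fin n) K m := by
    intro m f hf
    have := IsHomogeneous.aeval (show f.IsHomogeneous m from hf)
      (fun t => cf n K (τ (Pi.single t 1))) (fun j => cf_mem _)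
    rw [one_mul] at this
    exact this
  have hmon : ∀ d, ∀ m : Fin n →₀ ℕ, m.degree = d + 1 →
      monomial m (1 : K) - σ (ψ (monomial m 1)) ∈ Th l d := by
    intro d
    induction d with
    | zero =>
      intro m hm
      obtain ⟨j, hj⟩ : ∃ j, m j ≠ 0 := by
        by_contra hcon
        push Not at hcon
        have : m = 0 := Finsupp.ext hcon
        rw [this] at hm
        simp at hm
      have hsplit : m = Finsupp.single j 1 + (m - Finsupp.single j 1) := by
        rw [add_tsub_cancel_of_le]
        rw [Finsupp.single_le_iff]; omega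
      have hdeg : (m - Finsupp.single j 1).degree = 0 := by
        have := congrArg Finsupp.degree hsplit
        rw [map_add, Finsupp.degree_single, hm] at this
        omega
      have h0 : m - Finsupp.single j 1 = 0 := by
        rwa [Finsupp.degree_eq_zero_iff] at hdeg
      have : monomial m (1 : K) = X j * 1 := by
        rw [mul_one, X]
        rw [hsplit, h0, add_zero]
      rw [this, map_mul, map_mul, map_one, map_one, ← sub_mul]
      exact span_mul l 0 _ (hXj j) 1 (isHomogeneous_one (Fin n) K)
    | succ d ih =>
      intro m hm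
      obtain ⟨j, hj⟩ : ∃ j, m j ≠ 0 := by
        by_contra hcon
        push Not at hcon
        have : m = 0 := Finsupp.ext hcon
        rw [this] at hm
        simp at hm
      have hsplit : m = Finsupp.single j 1 + (m - Finsupp.single j 1) := by
        rw [add_tsub_cancel_of_le]
        rw [Finsupp.single_le_iff]; omega
      have hdeg : (m - Finsupp.single j 1).degree = d + 1 := by
        have := congrArg Finsupp.degree hsplit
        rw [map_add, Finsupp.degree_single, hm] at this
        omega
      set m' := m - Finsupp.single j 1 with hm'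
      have : monomial m (1 : K) = X j * monomial m' 1 := by
        rw [X, monomial_mul, one_mul, ← hsplit]
      rw [this, map_mul, map_mul]
      have e : X j * monomial m' (1 : K) - σ (ψ (X j)) * σ (ψ (monomial m' 1)) =
          (X j - σ (ψ (X j))) * monomial m' 1 +
            σ (ψ (X j)) * (monomial m' 1 - σ (ψ (monomial m' 1))) := by ring
      rw [e]
      refine Submodule.add_mem _ (span_mul l (d + 1) _ (hXj j) _ ?_)
        (mul_Th l d _ ?_ _ (ih m' hdeg))
      · exact isHomogeneous_monomial 1 hdeg
      · exact hσh 1 _ (hψh 1 _ (isHomogeneous_X K j))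
  have hall : ∀ f ∈ homogeneousSubmodule (Fin n) K (d + 1), f - σ (ψ f) ∈ Th l d := by
    intro f hf
    have hs := f.as_sum
    have : f - σ (ψ f) = ∑ m ∈ f.support, coeff m f • (monomial m (1 : K) - σ (ψ (monomial m 1))) := by
      conv_lhs => rw [hs]
      rw [map_sum, map_sum, ← Finset.sum_sub_distrib]
      refine Finset.sum_congr rfl fun m _ => ?_
      have hm : monomial m (coeff m f) = coeff m f • monomial m (1 : K) := by
        rw [smul_monomial, smul_eq_mul, mul_one]
      rw [hm, map_smul, map_smul, smul_sub]
    rw [this]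
    refine Submodule.sum_mem _ fun m hm => Submodule.smul_mem _ _ (hmon d m ?_)
    have := (show f.IsHomogeneous (d + 1) from hf) (mem_support_iff.mp hm)
    rw [Finsupp.degree_eq_weight_one]
    exact this
  have hThle : Th l d ≤ homogeneousSubmodule (Fin n) K (d + 1) := by
    rw [Th, Submodule.span_le]
    rintro _ ⟨i, f, hf, rfl⟩
    have := (show (l i).IsHomogeneous 1 from hl i).mul (show f.IsHomogeneous d from hf)
    rw [add_comm] at this
    exact this
  have hThk : ∀ f ∈ Th l d, ψ f = 0 := by
    intro f hf
    induction hf using Submodule.span_induction with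
    | mem x h =>
      obtain ⟨i, g, _, rfl⟩ := h
      rw [map_mul, hψl, zero_mul]
    | zero => exact map_zero _
    | add x y _ _ hx hy => rw [map_add, hx, hy, add_zero]
    | smul c x _ hx => rw [map_smul, hx, smul_zero]
  haveI : FiniteDimensional K (homogeneousSubmodule (Fin n) K (d + 1)) :=
    Module.Finite.iff_fg.mpr (homogeneousSubmodule_fg (Fin n) K (d + 1))
  have hrk := LinearMap.finrank_range_add_finrank_ker
    (ψ.toLinearMap.domRestrict (homogeneousSubmodule (Fin n) K (d + 1)))
  have hrange : LinearMap.range (ψ.toLinearMap.domRestrict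
      (homogeneousSubmodule (Fin n) K (d + 1))) = homogeneousSubmodule (Fin (n - r)) K (d + 1) := by
    apply le_antisymm
    · rintro _ ⟨⟨f, hf⟩, rfl⟩
      exact hψh _ f hf
    · intro g hg
      exact ⟨⟨σ g, hσh _ g hg⟩, hψσ g⟩
  have hker : LinearMap.ker (ψ.toLinearMap.domRestrict
      (homogeneousSubmodule (Fin n) K (d + 1))) =
      Submodule.comap (homogeneousSubmodule (Fin n) K (d + 1)).subtype (Th l d) := by
    ext ⟨f, hf⟩
    rw [LinearMap.mem_ker, Submodule.mem_comap]
    constructor
    · intro h
      have h' : ψ f = 0 := h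
      have := hall f hf
      rw [h', map_zero, sub_zero] at this
      exact this
    · intro h
      exact hThk f h
  rw [hrange, hker, LinearEquiv.finrank_eq (Submodule.comapSubtypeEquivOfLe hThle)] at hrk
  omega

end

end D94

theorem dim : StDIM := by
  intro n r K _ l hl hli hr d
  have h := D94.main l hl hli hr.le d
  rw [D94.finrank_hs (n - r) (d + 1) K] at h
  have e : n - r + (d + 1) - 1 = n - r + d := by omega
  rw [e] at h
  exact h

end Pool.Agent.K4H40.NS
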